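import Pool.Agent.Y477.SN.Loop

/-!
The central nilpotence class of the loop is `C + 2`.
-/

namespace Pool.Agent.Y477.SN

open Pool.Agent.Results.MP_543b9c_al.NoBound LoopStr

variable {R : Type} [CommRing R] {C M : ℕ}

/-- Congruence modulo the `j`-th member of the series. -/
def Same (j : ℕ) (X Y : L R C M) : Prop :=
  (j < C + 2 → X.t = Y.t ∧ X.x = Y.x) ∧ (∀ i : Fin (C + 2), (i : ℕ) + j < C + 2 → X.a i = Y.a i) ∧
    (j = 0 → X.z = Y.z)

lemma prev_congr {j : ℕ} {a b : Fin (C + 2) → R}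
    (h : ∀ i : Fin (C + 2), (i : ℕ) + j < C + 2 → a i = b i) (i : Fin (C + 2))
    (hi : (i : ℕ) + j < C + 2 + 1) : prev a i = prev b i := by
  revert hi
  refine Fin.cases ?_ (fun i => ?_) i
  · intro _
    simp
  · intro hi
    simp only [prev_succ]
    apply h
    simp only [Fin.val_succ] at hi
    simp only [Fin.val_castSucc]
    omega

lemma sol_congr {j : ℕ} {t : R} {a b : Fin (C + 2) → R}
    (h : ∀ i : Fin (C + 2), (i : ℕ) + j < C + 2 → a i = b i) (i : Fin (C + 2)) :
    (i : ℕ) + j < C + 2 → sol t a i = sol t b i := by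
  refine Fin.induction ?_ (fun i ih => ?_) i
  · intro hi
    exact h 0 hi
  · intro hi
    simp only [Fin.val_succ] at hi
    simp only [sol_succ]
    rw [h i.succ (by simpa using hi), ih (by simp only [Fin.val_castSucc]; omega)]

lemma Same.mul {j : ℕ} {X X' Y Y' : L R C M} (h : Same j X X') (h' : Same j Y Y') :
    Same j (mul X Y) (mul X' Y') := by
  obtain ⟨h1, h2, h3⟩ := h
  obtain ⟨k1, k2, k3⟩ := h'
  refine ⟨fun hj => ⟨?_, ?_⟩, fun i hi => ?_, fun hj => ?_⟩
  · rw [mul_t, mul_t, (h1 hj).1, (k1 hj).1]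
  · funext l
    rw [mul_x, mul_x, (h1 hj).2, (k1 hj).2]
  · rw [mul_a, mul_a, h2 i hi, k2 i hi, prev_congr k2 i (by omega), (h1 (by omega)).1]
  · rw [mul_z, mul_z, h3 hj, k3 hj, (h1 (by omega)).1, (k1 (by omega)).2]

lemma Same.ldiv {j : ℕ} {X X' Y Y' : L R C M} (h : Same j X X') (h' : Same j Y Y') :
    Same j (ldiv X Y) (ldiv X' Y') := by
  obtain ⟨h1, h2, h3⟩ := h
  obtain ⟨k1, k2, k3⟩ := h'
  refine ⟨fun hj => ⟨?_, ?_⟩, fun i hi => ?_, fun hj => ?_⟩
  · rw [ldiv_t, ldiv_t, (h1 hj).1, (k1 hj).1]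
  · funext l
    rw [ldiv_x, ldiv_x, (h1 hj).2, (k1 hj).2]
  · rw [ldiv_a, ldiv_a, (h1 (by omega)).1]
    exact sol_congr (fun i hi => by rw [h2 i hi, k2 i hi]) i hi
  · rw [ldiv_z, ldiv_z, h3 hj, k3 hj, (h1 (by omega)).1, (h1 (by omega)).2, (k1 (by omega)).2]

lemma Same.rdiv {j : ℕ} {X X' Y Y' : L R C M} (h : Same j X X') (h' : Same j Y Y') :
    Same j (rdiv X Y) (rdiv X' Y') := by
  obtain ⟨h1, h2, h3⟩ := h
  obtain ⟨k1, k2, k3⟩ := h'
  refine ⟨fun hj => ⟨?_, ?_⟩, fun i hi => ?_, fun hj => ?_⟩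
  · rw [rdiv_t, rdiv_t, (h1 hj).1, (k1 hj).1]
  · funext l
    rw [rdiv_x, rdiv_x, (h1 hj).2, (k1 hj).2]
  · rw [rdiv_a, rdiv_a, h2 i hi, k2 i hi, prev_congr k2 i (by omega), (h1 (by omega)).1,
      (k1 (by omega)).1]
  · rw [rdiv_z, rdiv_z, h3 hj, k3 hj, (h1 (by omega)).1, (k1 (by omega)).1, (k1 (by omega)).2]

lemma Same.refl (j : ℕ) (X : L R C M) : Same j X X := ⟨fun _ => ⟨rfl, rfl⟩, fun _ _ => rfl, fun _ => rfl⟩

lemma same_mlt {j : ℕ} {g : Equiv.Perm (L R C M)} (hg : g ∈ Mlt (L R C M)) :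
    ∀ X Y : L R C M, Same j X Y ↔ Same j (g X) (g Y) := by
  unfold Mlt at hg
  induction hg using Subgroup.closure_induction with
  | mem g hg =>
    rcases hg with ⟨a, rfl⟩ | ⟨a, rfl⟩
    · intro X Y
      refine ⟨fun h => (Same.refl j a).mul h, fun h => ?_⟩
      have h1 := (Same.refl j a).ldiv h
      change Same j (LoopStr.ldiv a (LoopStr.mul a X)) (LoopStr.ldiv a (LoopStr.mul a Y)) at h1
      rwa [LoopStr.ldiv_mul, LoopStr.ldiv_mul] at h1
    · intro X Y
      refine ⟨fun h => h.mul (Same.refl j a), fun h => ?_⟩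
      have h1 := h.rdiv (Same.refl j a)
      change Same j (LoopStr.rdiv (LoopStr.mul X a) a) (LoopStr.rdiv (LoopStr.mul Y a) a) at h1
      rwa [LoopStr.mul_rdiv, LoopStr.mul_rdiv] at h1
  | one => intro X Y; rfl
  | mul g h _ _ ihg ihh =>
    intro X Y
    rw [ihh X Y, ihg]
    rfl
  | inv g _ ih =>
    intro X Y
    have e : ∀ X, g (g⁻¹ X) = X := fun X => by simp
    have h1 := ih (g⁻¹ X) (g⁻¹ Y)
    rw [e, e] at h1
    exact h1.symm

/-- The series. -/
def Ser (R : Type) [CommRing R] (C M j : ℕ) : Set (L R C M) := {X | Same j X one}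

lemma normal_ser (j : ℕ) : IsNormalSubloop (Ser R C M j) := by
  refine ⟨⟨Same.refl j _, ?_, ?_, ?_⟩, ?_⟩
  · intro X hX Y hY
    have h : Same j (LoopStr.mul X Y) (LoopStr.mul one one) := Same.mul hX hY
    rwa [LoopStr.one_mul] at h
  · intro X hX Y hY
    have h : Same j (LoopStr.ldiv X Y) (LoopStr.ldiv one one) := Same.ldiv hX hY
    have h1 : LoopStr.ldiv (one : L R C M) one = one := by
      have := LoopStr.ldiv_mul (one : L R C M) one
      rwa [LoopStr.one_mul] at this
    rwa [h1] at h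
  · intro X hX Y hY
    have h : Same j (LoopStr.rdiv X Y) (LoopStr.rdiv one one) := Same.rdiv hX hY
    have h1 : LoopStr.rdiv (one : L R C M) one = one := by
      have := LoopStr.mul_rdiv (one : L R C M) one
      rwa [LoopStr.one_mul] at this
    rwa [h1] at h
  · intro g hg h1 X hX
    have h := (same_mlt (j := j) hg X one).1 hX
    rwa [h1] at h

lemma prev_zero_fun (a : Fin (C + 2) → R) (h : ∀ i, a i = 0) (i : Fin (C + 2)) :
    prev a i = 0 := by
  refine Fin.cases ?_ (fun i => ?_) i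
  · simp
  · simp [h]

/-- Congruent elements lie in the same coset. -/
lemma coset_of_same {j : ℕ} {X Y : L R C M} (h : Same j X Y) : CosetEq (Ser R C M j) X Y := by
  refine ⟨LoopStr.ldiv Y X, ?_, (LoopStr.mul_ldiv Y X).symm⟩
  have h1 : Same j (LoopStr.ldiv Y X) (LoopStr.ldiv Y Y) := Same.ldiv (Same.refl j Y) h
  have h2 : LoopStr.ldiv Y Y = one := by
    have := LoopStr.ldiv_mul Y one
    rwa [LoopStr.mul_one] at this
  rwa [h2] at h1

lemma prod_zero' (x : Fin (M + 1) → R) (h : ∀ j, x j = 0) : ∏ j, x j = 0 :=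
  Finset.prod_eq_zero (Finset.mem_univ 0) (h 0)

lemma prev_add (a b : Fin (C + 2) → R) (i : Fin (C + 2)) :
    prev (fun i => a i + b i) i = prev a i + prev b i := by
  refine Fin.cases ?_ (fun i => ?_) i <;> simp

lemma prev_add_mul (a b c : Fin (C + 2) → R) (r : R) (i : Fin (C + 2)) :
    prev (fun i => a i + b i + r * c i) i = prev a i + prev b i + r * prev c i := by
  refine Fin.cases ?_ (fun i => ?_) i <;> simp

lemma central_ser {j : ℕ} (hj : j < C + 2) (e : L R C M) (he : e ∈ Ser R C M (j + 1)) :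
    CentralMod (Ser R C M j) e := by
  obtain ⟨h1, h2, -⟩ := he
  by_cases htop : j + 1 < C + 2
  · -- not the top member
    have ht : e.t = 0 := (h1 htop).1
    have hx : ∀ l, e.x l = 0 := fun l => congrFun (h1 htop).2 l
    have ha : ∀ i : Fin (C + 2), (i : ℕ) + (j + 1) < C + 2 → e.a i = 0 := fun i hi => h2 i hi
    have hp : ∀ i : Fin (C + 2), (i : ℕ) + j < C + 2 → prev e.a i = 0 := by
      intro i
      refine Fin.cases ?_ (fun i => ?_) i
      · intro _; simp
      · intro hi
        simp only [Fin.val_succ] at hi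
        simp only [prev_succ]
        exact ha _ (by simp only [Fin.val_castSucc]; omega)
    have hpp : ∀ i : Fin (C + 2), (i : ℕ) + j < C + 2 → prev (prev e.a) i = 0 := by
      intro i
      refine Fin.cases ?_ (fun i => ?_) i
      · intro _; simp
      · intro hi
        simp only [Fin.val_succ] at hi
        simp only [prev_succ]
        exact hp _ (by simp only [Fin.val_castSucc]; omega)
    have hpe : ∏ l, e.x l = 0 := prod_zero' _ hx
    intro X Y
    refine ⟨coset_of_same ⟨fun _ => ⟨?_, ?_⟩, fun i hi => ?_, fun _ => ?_⟩,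
      coset_of_same ⟨fun _ => ⟨?_, ?_⟩, fun i hi => ?_, fun _ => ?_⟩,
      coset_of_same ⟨fun _ => ⟨?_, ?_⟩, fun i hi => ?_, fun _ => ?_⟩,
      coset_of_same ⟨fun _ => ⟨?_, ?_⟩, fun i hi => ?_, fun _ => ?_⟩⟩
    · simp only [mul_t]; ring
    · funext l; simp only [mul_x]; ring
    · simp only [mul_a, ht, hp i hi]; ring
    · simp only [mul_z, ht, hpe]; ring
    · simp only [mul_t]; ring
    · funext l; simp only [mul_x]; ring
    · simp only [mul_a, mul_t, ht]; ring
    · simp only [mul_z, mul_t, ht]; ring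
    · simp only [mul_t]; ring
    · funext l; simp only [mul_x]; ring
    · have h3 : prev (LoopStr.mul e Y).a i = prev e.a i + prev Y.a i := by
        have h4 : (LoopStr.mul e Y).a = fun i => e.a i + Y.a i + e.t * prev Y.a i := rfl
        rw [h4, prev_add_mul, ht]; ring
      rw [mul_a, mul_a, mul_a, mul_a, h3, mul_t, ht]; ring
    · have h3 : ∀ l, (LoopStr.mul e Y).x l = Y.x l := fun l => by rw [mul_x, hx]; ring
      simp only [mul_z, mul_t, ht, hpe, h3]; ring
    · simp only [mul_t]; ring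
    · funext l; simp only [mul_x]; ring
    · have h3 : prev (LoopStr.mul Y e).a i = prev Y.a i + prev e.a i + Y.t * prev (prev e.a) i := by
        have h4 : (LoopStr.mul Y e).a = fun i => Y.a i + e.a i + Y.t * prev e.a i := rfl
        rw [h4, prev_add_mul]
      rw [mul_a, mul_a, mul_a, mul_a, h3, hp i hi, hpp i hi, mul_t]; ring
    · have h3 : ∀ l, (LoopStr.mul Y e).x l = Y.x l := fun l => by rw [mul_x, hx]; ring
      simp only [mul_z, mul_t, hpe, h3]; ring
  · -- the top member
    have hj1 : j = C + 1 := by omega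
    have hi0 : ∀ i : Fin (C + 2), (i : ℕ) + j < C + 2 → i = 0 := by
      intro i hi
      apply Fin.ext
      simp only [Fin.val_zero]
      omega
    intro X Y
    refine ⟨coset_of_same ⟨fun _ => ⟨?_, ?_⟩, fun i hi => ?_, fun h => by omega⟩,
      coset_of_same ⟨fun _ => ⟨?_, ?_⟩, fun i hi => ?_, fun h => by omega⟩,
      coset_of_same ⟨fun _ => ⟨?_, ?_⟩, fun i hi => ?_, fun h => by omega⟩,
      coset_of_same ⟨fun _ => ⟨?_, ?_⟩, fun i hi => ?_, fun h => by omega⟩⟩
    · simp only [mul_t]; ring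
    · funext l; simp only [mul_x]; ring
    · rw [hi0 i hi]; simp only [mul_a, prev_zero]; ring
    · simp only [mul_t]; ring
    · funext l; simp only [mul_x]; ring
    · rw [hi0 i hi]; simp only [mul_a, prev_zero]; ring
    · simp only [mul_t]; ring
    · funext l; simp only [mul_x]; ring
    · rw [hi0 i hi]; simp only [mul_a, prev_zero]; ring
    · simp only [mul_t]; ring
    · funext l; simp only [mul_x]; ring
    · rw [hi0 i hi]; simp only [mul_a, prev_zero]; ring

lemma ser_zero : Ser R C M 0 = {one} := by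
  ext X
  simp only [Ser, Set.mem_ofPred_eq, Set.mem_singleton_iff]
  constructor
  · rintro ⟨h1, h2, h3⟩
    ext i
    · exact (h1 (by omega)).1
    · exact h2 i (by have := i.2; omega)
    · exact congrFun (h1 (by omega)).2 i
    · exact h3 rfl
  · rintro rfl
    exact Same.refl 0 _

lemma ser_top : Ser R C M (C + 2) = Set.univ := by
  ext X
  simp only [Ser, Set.mem_ofPred_eq, Set.mem_univ, iff_true]
  exact ⟨fun h => by omega, fun i hi => by omega, fun h => by omega⟩

lemma ser_mono (j : ℕ) : Ser R C M j ⊆ Ser R C M (j + 1) := by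
  rintro X ⟨h1, h2, h3⟩
  exact ⟨fun h => h1 (by omega), fun i hi => h2 i (by omega), fun h => by omega⟩

/-- The class is at least `C + 2`. -/
lemma lower_class [Nontrivial R] (N : ℕ → Set (L R C M)) (h0 : N 0 = {one})
    (k : ℕ) (hk : ∀ i < k, N i ⊆ N (i + 1) ∧ ∀ a ∈ N (i + 1), CentralMod (N i) a) :
    ∀ i ≤ k, i ≤ C + 1 → ∀ e ∈ N i, e.t = 0 ∧ ∀ l : Fin (C + 2), (l : ℕ) + i < C + 2 → e.a l = 0 := by
  intro i
  induction i with
  | zero =>
    intro _ _ e he
    rw [h0, Set.mem_singleton_iff] at he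
    subst he
    exact ⟨rfl, fun _ _ => rfl⟩
  | succ i ih =>
    intro hik hiC e he
    have ih' := ih (by omega) (by omega)
    have hc := (hk i (by omega)).2 e he
    -- comparison of the coordinates
    have key : ∀ (Y : L R C M) (l : Fin (C + 2)), (l : ℕ) + i < C + 2 →
        e.t * prev Y.a l = Y.t * prev e.a l := by
      intro Y l hl
      obtain ⟨n, hn, hnn⟩ := (hc Y one).1
      obtain ⟨n1, n2⟩ := ih' n hn
      have h1 := congrArg (fun X : L R C M => X.a l) hnn
      have h2 : prev n.a l = 0 := by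
        revert hl
        refine Fin.cases ?_ (fun l => ?_) l
        · intro _; simp
        · intro hl
          simp only [Fin.val_succ] at hl
          simp only [prev_succ]
          exact n2 _ (by simp only [Fin.val_castSucc]; omega)
      simp only [mul_a, h2, n2 l hl] at h1
      linear_combination h1
    have ht : e.t = 0 := by
      have h1 := key ⟨0, fun _ => 1, fun _ => 0, 0⟩ (Fin.succ 0) (by
        simp only [Fin.val_succ, Fin.val_zero]; omega)
      simp only [prev_succ, _root_.mul_one, zero_mul] at h1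
      exact h1
    refine ⟨ht, fun l hl => ?_⟩
    have hl' : (l : ℕ) < C + 1 := by omega
    have h1 := key ⟨1, fun _ => 0, fun _ => 0, 0⟩ (Fin.succ ⟨l, hl'⟩) (by
      simp only [Fin.val_succ]; omega)
    simp only [prev_succ, ht, zero_mul, _root_.one_mul] at h1
    exact h1.symm

lemma clcn_L [Nontrivial R] : clcn (L R C M) = (C + 2 : ℕ) := by
  apply le_antisymm
  · apply sInf_le
    refine ⟨C + 2, rfl, Ser R C M, ser_zero, ser_top, fun i _ => normal_ser i, fun i hi =>
      ⟨ser_mono i, fun e he => central_ser hi e he⟩⟩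
  · apply le_sInf
    rintro c ⟨k, rfl, N, h0, hk, -, hN⟩
    by_contra hcon
    push Not at hcon
    have hk' : k < C + 2 := by exact_mod_cast hcon
    have h1 := lower_class N h0 k hN k le_rfl (by omega) ⟨1, fun _ => 0, fun _ => 0, 0⟩
      (by rw [hk]; trivial)
    exact one_ne_zero h1.1

end Pool.Agent.Y477.SN
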