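import Pool.Agent.Y477.SN.Loop

/-!
The loop is not `k`-supernilpotent for `1 ≤ k ≤ M + 1`.
-/

namespace Pool.Agent.Y477.SN

open Pool.Agent.Results.MP_543b9c_al.NoBound LoopStr

variable {R : Type} [CommRing R] {C M : ℕ}

/-- Elements with only `x`-coordinates. -/
def ofX (x : Fin (M + 1) → R) : L R C M := ⟨0, fun _ => 0, x, 0⟩

lemma ofX_zero : (ofX (fun _ => 0) : L R C M) = one := rfl

lemma prev_fun_zero (i : Fin (C + 2)) : prev (fun _ : Fin (C + 2) => (0 : R)) i = 0 := by
  refine Fin.cases ?_ (fun i => ?_) i <;> simp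

lemma prodPoly_eval {V : Type} (xs : List V) (e : V → L R C M) (f : V → Fin (M + 1) → R)
    (h : ∀ v ∈ xs, e v = ofX (f v)) :
    (prodPoly xs).eval e = ofX (fun j => (xs.map (fun v => f v j)).sum) := by
  induction xs with
  | nil => rfl
  | cons y ys ih =>
    have h1 := ih fun v hv => h v (List.mem_cons_of_mem _ hv)
    have h2 := h y List.mem_cons_self
    change mul (e y) ((prodPoly ys).eval e) = _
    rw [h1, h2]
    ext i
    · simp [mul_t, ofX]
    · simp [mul_a, ofX]
    · simp [mul_x, ofX]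
    · simp [mul_z, ofX]

/-- The commutator polynomial. -/
def cp {Q V : Type} [LoopStr Q] (p q : LPoly Q V) : LPoly Q V := .rdiv (.mul p q) (.mul q p)

lemma cp_eval {V : Type} (p q : LPoly (L R C M) V) (e : V → L R C M) (τ : R)
    (x : Fin (M + 1) → R) (hp : p.eval e = ⟨τ, fun _ => 0, fun _ => 0, 0⟩)
    (hq : q.eval e = ofX x) :
    (cp p q).eval e = ⟨0, fun _ => 0, fun _ => 0, τ * ∏ j, x j⟩ := by
  change rdiv (mul (p.eval e) (q.eval e)) (mul (q.eval e) (p.eval e)) = _
  rw [hp, hq]
  ext i
  · simp [rdiv_t, mul_t, ofX]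
  · simp only [rdiv_a, mul_a, ofX, mul_t, prev_fun_zero]
    ring
  · simp [rdiv_x, mul_x, ofX]
  · simp [rdiv_z, mul_z, ofX, mul_t]

/-- The blocks. -/
def blo (M k : ℕ) (i : Fin k) : Fin (M + 1) → R := fun j => if min (j : ℕ) (k - 1) = i then 1 else 0

lemma not_isSN [Nontrivial R] (k : ℕ) (hk : 1 ≤ k) (hk2 : k ≤ M + 1) : ¬ IsSN (L R C M) k := by
  classical
  intro H
  let vars : List ((Σ _ : Fin k, Fin 1) ⊕ Fin 1) := List.ofFn (fun i : Fin k => Sum.inl ⟨i, 0⟩)
  let T : L R C M := ⟨1, fun _ => 0, fun _ => 0, 0⟩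
  have hval : ∀ (s : Fin k → Bool) (w : L R C M),
      (prodPoly vars).eval (Sum.elim (fun ij => if s ij.1 = true then
        (ofX (blo M k ij.1) : L R C M) else one) (fun _ => w)) =
        ofX (fun j => ∑ i : Fin k, if s i = true then blo M k i j else 0) := by
    intro s w
    rw [prodPoly_eval vars _ (Sum.elim (fun ij j => if s ij.1 = true then
      (blo M k ij.1 j : R) else 0) (fun _ _ => 0))]
    · congr 1
      funext j
      simp only [vars, List.map_ofFn, List.sum_ofFn, Function.comp_def, Sum.elim_inl]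
    · intro v hv
      simp only [vars, List.mem_ofFn] at hv
      obtain ⟨i, rfl⟩ := hv
      simp only [Sum.elim_inl]
      split_ifs
      · rfl
      · rfl
  have hcp : ∀ (s : Fin k → Bool) (τ : R),
      (cp (.var (Sum.inr 0)) (prodPoly vars)).eval (Sum.elim (fun ij => if s ij.1 = true then
        (ofX (blo M k ij.1) : L R C M) else one)
        (fun _ : Fin 1 => (⟨τ, fun _ => 0, fun _ => 0, 0⟩ : L R C M))) =
        ⟨0, fun _ => 0, fun _ => 0, τ * ∏ j : Fin (M + 1), ∑ i : Fin k,
          if s i = true then (blo M k i j : R) else 0⟩ := by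
    intro s τ
    exact cp_eval _ _ _ τ _ rfl (hval s _)
  have hprod0 : ∀ s : Fin k → Bool, (s ≠ fun _ => true) → ∏ j : Fin (M + 1), ∑ i : Fin k,
      (if s i = true then (blo M k i j : R) else 0) = 0 := by
    intro s hs
    obtain ⟨i₀, hi₀⟩ : ∃ i, s i ≠ true := by
      by_contra hcon
      push Not at hcon
      exact hs (funext hcon)
    apply Finset.prod_eq_zero (Finset.mem_univ (⟨i₀, by omega⟩ : Fin (M + 1)))
    refine Finset.sum_eq_zero fun i _ => ?_
    by_cases h1 : s i = true
    · rw [if_pos h1]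
      unfold blo
      rw [if_neg]
      intro h2
      have h3 : min (i₀ : ℕ) (k - 1) = i₀ := by have := i₀.2; omega
      simp only at h2
      rw [h3] at h2
      have : i₀ = i := Fin.ext h2
      rw [this] at hi₀
      exact hi₀ h1
    · rw [if_neg h1]
  have hprod1 : ∏ j : Fin (M + 1), ∑ i : Fin k,
      (if (fun _ : Fin k => true) i = true then (blo M k i j : R) else 0) = 1 := by
    refine Finset.prod_eq_one fun j _ => ?_
    rw [Finset.sum_eq_single (⟨min (j : ℕ) (k - 1), by omega⟩ : Fin k)]
    · simp [blo]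
    · intro i _ hi
      have : ¬ (min (j : ℕ) (k - 1) = i) := by
        intro h
        apply hi
        ext
        exact h.symm
      simp [blo, this]
    · simp
  have key := H (fun _ => 1) 1 (cp (.var (Sum.inr 0)) (prodPoly vars))
    (fun _ _ => one) (fun i _ => ofX (blo M k i)) (fun _ => one) (fun _ => T) ?_ ?_
  · have e0 := hcp (fun _ => true) 0
    have e1 := hcp (fun _ => true) 1
    simp only [if_true] at e0 e1
    have e2 : (⟨0, fun _ => 0, fun _ => 0, 0⟩ : L R C M) = one := rfl
    rw [e2] at e0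
    simp only [T] at key
    rw [e0, e1] at key
    have h3 := congrArg L.z key
    simp only [if_true] at hprod1
    rw [hprod1] at h3
    simp at h3
  · intro i h
    have h1 := congrFun h 0
    have h2 := congrArg (fun X : L R C M => X.x ⟨i, by have := i.2; omega⟩) h1
    have h4 : min (i : ℕ) (k - 1) = i := by have := i.2; omega
    simp [blo, ofX, one_x, h4] at h2
  · intro s hs
    have e0 := hcp s 0
    have e1 := hcp s 1
    have e2 : (⟨0, fun _ => 0, fun _ => 0, 0⟩ : L R C M) = one := rfl
    rw [e2] at e0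
    simp only [T]
    rw [e0, e1, hprod0 s hs]
    simp

end Pool.Agent.Y477.SN
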