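import Mathlib

/-!
Functions of bounded degree on a cube.
-/

namespace Pool.Agent.Y477.SN

variable {R : Type} [CommRing R] {ι : Type} [Fintype ι] [DecidableEq ι]

/-- The monomial of a set of coordinates. -/
def mon (T : Finset ι) (s : ι → Bool) : R := if ∀ i ∈ T, s i = true then 1 else 0

lemma mon_mul (T T' : Finset ι) (s : ι → Bool) :
    (mon T s : R) * mon T' s = mon (T ∪ T') s := by
  unfold mon
  by_cases h : ∀ i ∈ T, s i = true
  · by_cases h' : ∀ i ∈ T', s i = true
    · rw [if_pos h, if_pos h', if_pos, mul_one]
      intro i hi
      rcases Finset.mem_union.1 hi with hi | hi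
      · exact h i hi
      · exact h' i hi
    · have h3 : ¬ ∀ i ∈ T ∪ T', s i = true := fun h2 =>
        h' fun i hi => h2 i (Finset.mem_union_right _ hi)
      rw [if_neg h3, if_neg h', mul_zero]
  · have h3 : ¬ ∀ i ∈ T ∪ T', s i = true := fun h2 =>
      h fun i hi => h2 i (Finset.mem_union_left _ hi)
    rw [if_neg h3, if_neg h, zero_mul]

/-- Functions of degree at most `d`. -/
def Deg (d : ℕ) (f : (ι → Bool) → R) : Prop :=
  f ∈ Submodule.span R {g : (ι → Bool) → R | ∃ T : Finset ι, T.card ≤ d ∧ g = mon T}

lemma Deg.mono {d e : ℕ} {f : (ι → Bool) → R} (h : Deg d f) (hde : d ≤ e) : Deg e f := by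
  refine Submodule.span_mono ?_ h
  rintro _ ⟨T, hT, rfl⟩
  exact ⟨T, hT.trans hde, rfl⟩

lemma Deg.const (c : R) : Deg 0 (fun _ : ι → Bool => c) := by
  have h : (fun _ : ι → Bool => c) = c • (mon ∅ : (ι → Bool) → R) := by
    funext s
    simp [mon]
  rw [h]
  exact Submodule.smul_mem _ _ (Submodule.subset_span ⟨∅, by simp, rfl⟩)

lemma Deg.add {d : ℕ} {f g : (ι → Bool) → R} (h : Deg d f) (h' : Deg d g) :
    Deg d (fun s => f s + g s) := Submodule.add_mem _ h h'

lemma Deg.sub {d : ℕ} {f g : (ι → Bool) → R} (h : Deg d f) (h' : Deg d g) :
    Deg d (fun s => f s - g s) := Submodule.sub_mem _ h h'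

lemma Deg.mul {d e : ℕ} {f g : (ι → Bool) → R} (h : Deg d f) (h' : Deg e g) :
    Deg (d + e) (fun s => f s * g s) := by
  have key : ∀ f : (ι → Bool) → R, Deg d f → ∀ g, Deg e g → Deg (d + e) (f * g) := by
    intro f hf g hg
    refine Submodule.span_induction (p := fun f _ => Deg (d + e) (f * g)) ?_ ?_ ?_ ?_ hf
    · rintro _ ⟨T, hT, rfl⟩
      refine Submodule.span_induction (p := fun g _ => Deg (d + e) (mon T * g)) ?_ ?_ ?_ ?_ hg
      · rintro _ ⟨T', hT', rfl⟩
        apply Submodule.subset_span
        refine ⟨T ∪ T', (Finset.card_union_le _ _).trans (by omega), ?_⟩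
        funext s
        exact mon_mul T T' s
      · rw [mul_zero]; exact Submodule.zero_mem _
      · intro x y _ _ hx hy
        rw [mul_add]; exact Submodule.add_mem _ hx hy
      · intro c x _ hx
        rw [mul_smul_comm]; exact Submodule.smul_mem _ _ hx
    · rw [zero_mul]; exact Submodule.zero_mem _
    · intro x y _ _ hx hy
      rw [add_mul]; exact Submodule.add_mem _ hx hy
    · intro c x _ hx
      rw [smul_mul_assoc]; exact Submodule.smul_mem _ _ hx
  exact key f h g h'

lemma Deg.prod {κ : Type} (S : Finset κ) {f : κ → (ι → Bool) → R} (h : ∀ j, Deg 1 (f j)) :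
    Deg S.card (fun s => ∏ j ∈ S, f j s) := by
  classical
  induction S using Finset.induction_on with
  | empty => simpa using Deg.const (ι := ι) (1 : R)
  | insert j S hj ih =>
    rw [Finset.card_insert_of_notMem hj]
    have h1 : (fun s => ∏ j ∈ insert j S, f j s) = fun s => f j s * ∏ j ∈ S, f j s := by
      funext s
      rw [Finset.prod_insert hj]
    rw [h1]
    exact ((h j).mul ih).mono (by omega)

lemma Deg.ite (i : ι) (a b : R) : Deg 1 (fun s : ι → Bool => if s i = true then b else a) := by
  have h : (fun s : ι → Bool => if s i = true then b else a) =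
      fun s => a + (b - a) * mon {i} s := by
    funext s
    by_cases hs : s i = true
    · simp [mon, hs]
    · simp [mon, hs]
  rw [h]
  refine ((Deg.const a).mono (by omega)).add ?_
  have h2 : Deg 1 (mon {i} : (ι → Bool) → R) := Submodule.subset_span ⟨{i}, by simp, rfl⟩
  exact ((Deg.const (b - a)).mul h2).mono (by omega)

/-- The sign of a vertex. -/
def sgn (s : ι → Bool) : R := ∏ i, if s i = true then 1 else -1

lemma sgn_flip (s : ι → Bool) (i : ι) :
    (sgn (Function.update s i (!s i)) : R) = - sgn s := by
  unfold sgn
  rw [← Finset.mul_prod_erase Finset.univ _ (Finset.mem_univ i),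
    ← Finset.mul_prod_erase Finset.univ _ (Finset.mem_univ i)]
  have h : ∏ x ∈ Finset.univ.erase i, (if Function.update s i (!s i) x = true then (1 : R) else -1)
      = ∏ x ∈ Finset.univ.erase i, if s x = true then (1 : R) else -1 := by
    refine Finset.prod_congr rfl fun x hx => ?_
    rw [Function.update_of_ne (Finset.ne_of_mem_erase hx)]
  rw [h, Function.update_self]
  cases s i <;> simp

lemma flip_ne (s : ι → Bool) (i : ι) : Function.update s i (!s i) ≠ s := by
  intro h
  have := congrFun h i
  rw [Function.update_self] at this
  cases hs : s i <;> simp [hs] at this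

lemma flip_flip (s : ι → Bool) (i : ι) :
    Function.update (Function.update s i (!s i)) i (!(Function.update s i (!s i)) i) = s := by
  rw [Function.update_self, Bool.not_not, Function.update_idem, Function.update_eq_self]

lemma sum_mon (T : Finset ι) (hT : T.card < Fintype.card ι) :
    ∑ s : ι → Bool, (sgn s : R) * mon T s = 0 := by
  obtain ⟨i, hi⟩ : ∃ i, i ∉ T := by
    by_contra hc
    push Not at hc
    have : T = Finset.univ := Finset.eq_univ_iff_forall.2 hc
    rw [this, Finset.card_univ] at hT
    exact lt_irrefl _ hT
  refine Finset.sum_involution (fun s _ => Function.update s i (!s i)) ?_ ?_ ?_ ?_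
  · intro s _
    have h : (mon T (Function.update s i (!s i)) : R) = mon T s := by
      unfold mon
      have : (∀ j ∈ T, Function.update s i (!s i) j = true) ↔ ∀ j ∈ T, s j = true := by
        refine forall₂_congr fun j hj => ?_
        rw [Function.update_of_ne]
        rintro rfl
        exact hi hj
      simp only [this]
    rw [h, sgn_flip]
    ring
  · intro s _ _
    exact flip_ne s i
  · intro s _
    exact Finset.mem_univ _
  · intro s _
    exact flip_flip s i

lemma sum_deg {d : ℕ} {f : (ι → Bool) → R} (hf : Deg d f) (hd : d < Fintype.card ι) :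
    ∑ s : ι → Bool, (sgn s : R) * f s = 0 := by
  refine Submodule.span_induction (p := fun f _ => ∑ s : ι → Bool, (sgn s : R) * f s = 0)
    ?_ ?_ ?_ ?_ hf
  · rintro _ ⟨T, hT, rfl⟩
    exact sum_mon T (lt_of_le_of_lt hT hd)
  · simp
  · intro x y _ _ hx hy
    simp only [Pi.add_apply, mul_add, Finset.sum_add_distrib, hx, hy, add_zero]
  · intro c x _ hx
    simp only [Pi.smul_apply, smul_eq_mul]
    have : ∀ s : ι → Bool, (sgn s : R) * (c * x s) = c * (sgn s * x s) := fun s => by ring
    simp only [this, ← Finset.mul_sum, hx, mul_zero]

/-- A function of small degree with equal values on the edges in one direction except one edge has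
equal values on this edge. -/
lemma corner {n d : ℕ} {F : (Option (Fin n) → Bool) → R} (hF : Deg d F) (hd : d < n + 1)
    (h : ∀ s : Option (Fin n) → Bool, (∃ i, s (some i) = false) →
      F (Function.update s none true) = F (Function.update s none false)) :
    F (fun _ => true) = F (Function.update (fun _ => true) none false) := by
  classical
  have hsum := sum_deg hF (by simpa using hd)
  set c1 : Option (Fin n) → Bool := fun _ => true with hc1
  set c0 : Option (Fin n) → Bool := Function.update c1 none false with hc0
  have hne : c1 ≠ c0 := by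
    intro e
    have := congrFun e none
    rw [hc0, Function.update_self] at this
    exact absurd this (by decide)
  have hrest : ∑ s ∈ Finset.univ.filter (fun s : Option (Fin n) → Bool => ∃ i, s (some i) = false),
      (sgn s : R) * F s = 0 := by
    refine Finset.sum_involution (fun s _ => Function.update s none (!s none)) ?_ ?_ ?_ ?_
    · intro s hs
      rw [Finset.mem_filter] at hs
      have h1 := h s hs.2
      rw [sgn_flip]
      cases hv : s none
      · have h2 : Function.update s none false = s := by rw [← hv, Function.update_eq_self]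
        rw [h2] at h1
        simp only [Bool.not_false]
        rw [h1]
        ring
      · have h2 : Function.update s none true = s := by rw [← hv, Function.update_eq_self]
        rw [h2] at h1
        simp only [Bool.not_true]
        rw [← h1]
        ring
    · intro s _ _
      exact flip_ne s none
    · intro s hs
      rw [Finset.mem_filter] at hs ⊢
      obtain ⟨i, hi⟩ := hs.2
      exact ⟨Finset.mem_univ _, i, by rw [Function.update_of_ne (by simp)]; exact hi⟩
    · intro s _
      exact flip_flip s none
  have hcompl : Finset.univ.filter (fun s : Option (Fin n) → Bool => ¬ ∃ i, s (some i) = false)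
      = {c1, c0} := by
    ext s
    simp only [Finset.mem_filter, Finset.mem_univ, true_and, Finset.mem_insert,
      Finset.mem_singleton, not_exists, Bool.not_eq_false]
    constructor
    · intro hs
      cases hv : s none
      · right
        funext o
        rcases o with _ | i
        · rw [hv, hc0, Function.update_self]
        · rw [hc0, Function.update_of_ne (by simp), hs i]
      · left
        funext o
        rcases o with _ | i
        · exact hv
        · exact hs i
    · rintro (rfl | rfl) i
      · rfl
      · rw [hc0, Function.update_of_ne (by simp)]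
  rw [← Finset.sum_filter_add_sum_filter_not Finset.univ
    (fun s : Option (Fin n) → Bool => ∃ i, s (some i) = false), hrest, zero_add, hcompl,
    Finset.sum_pair hne] at hsum
  have hs1 : (sgn c1 : R) = 1 := by
    unfold sgn
    simp [hc1]
  have hs0 : (sgn c0 : R) = -1 := by
    have h1 := sgn_flip (R := R) c1 none
    have h2 : Function.update c1 none (!c1 none) = c0 := by rw [hc0]; rfl
    rw [h2, hs1] at h1
    exact h1
  rw [hs1, hs0] at hsum
  linear_combination hsum

end Pool.Agent.Y477.SN
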