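import Pool.Agent.Results.MP_543b9c_al.NoBound

/-!
A loop on `R × R^(C+2) × R^(M+1) × R`.
-/

namespace Pool.Agent.Y477.SN

open Pool.Agent.Results.MP_543b9c_al.NoBound LoopStr

section seq

variable {R : Type} [CommRing R] {C : ℕ}

/-- The shift. -/
def prev (a : Fin (C + 2) → R) : Fin (C + 2) → R :=
  Fin.cases 0 (fun i => a i.castSucc)

@[simp] lemma prev_zero (a : Fin (C + 2) → R) : prev a 0 = 0 := rfl
@[simp] lemma prev_succ (a : Fin (C + 2) → R) (i : Fin (C + 1)) :
    prev a i.succ = a i.castSucc := rfl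

/-- The solution `w` of `w + t prev w = b`. -/
def sol (t : R) (b : Fin (C + 2) → R) (i : Fin (C + 2)) : R :=
  Fin.induction (motive := fun _ => R) (b 0) (fun i w => b i.succ - t * w) i

@[simp] lemma sol_zero (t : R) (b : Fin (C + 2) → R) : sol t b 0 = b 0 := rfl
@[simp] lemma sol_succ (t : R) (b : Fin (C + 2) → R) (i : Fin (C + 1)) :
    sol t b i.succ = b i.succ - t * sol t b i.castSucc := rfl

lemma sol_spec (t : R) (b : Fin (C + 2) → R) (i : Fin (C + 2)) :
    sol t b i + t * prev (sol t b) i = b i := by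
  refine Fin.cases ?_ (fun i => ?_) i
  · simp
  · simp

lemma sol_unique (t : R) (b w : Fin (C + 2) → R) (h : ∀ i, w i + t * prev w i = b i) :
    ∀ i, sol t b i = w i := by
  intro i
  refine Fin.induction ?_ (fun i ih => ?_) i
  · have := h 0
    simp only [prev_zero, mul_zero, add_zero] at this
    rw [sol_zero, this]
  · have := h i.succ
    rw [prev_succ] at this
    rw [sol_succ, ih, ← this]
    ring

end seq

/-- The underlying set of the loop. -/
@[ext] structure L (R : Type) (C M : ℕ) where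
  t : R
  a : Fin (C + 2) → R
  x : Fin (M + 1) → R
  z : R

variable {R : Type} [CommRing R] {C M : ℕ}

/-- The loop. -/
instance instL : LoopStr (L R C M) where
  mul X Y := ⟨X.t + Y.t, fun i => X.a i + Y.a i + X.t * prev Y.a i, fun j => X.x j + Y.x j,
    X.z + Y.z + X.t * ∏ j, Y.x j⟩
  ldiv X Y := ⟨Y.t - X.t, sol X.t (fun i => Y.a i - X.a i), fun j => Y.x j - X.x j,
    Y.z - X.z - X.t * ∏ j, (Y.x j - X.x j)⟩
  rdiv Y X := ⟨Y.t - X.t, fun i => Y.a i - X.a i - (Y.t - X.t) * prev X.a i,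
    fun j => Y.x j - X.x j, Y.z - X.z - (Y.t - X.t) * ∏ j, X.x j⟩
  one := ⟨0, fun _ => 0, fun _ => 0, 0⟩
  one_mul X := by
    ext i <;> simp
  mul_one X := by
    ext i
    · simp
    · have : prev (fun _ : Fin (C + 2) => (0 : R)) i = 0 := by
        refine Fin.cases ?_ (fun i => ?_) i <;> simp
      simp [this]
    · simp
    · simp
  mul_ldiv X Y := by
    ext i
    · simp
    · have h := sol_spec X.t (fun i => Y.a i - X.a i) i
      simp only at h ⊢
      linear_combination h
    · simp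
    · simp only; ring
  ldiv_mul X Y := by
    ext i
    · simp
    · show sol X.t (fun i => X.a i + Y.a i + X.t * prev Y.a i - X.a i) i = Y.a i
      exact sol_unique _ _ _ (fun i => by ring) i
    · simp
    · simp only [add_sub_cancel_left]; ring
  rdiv_mul Y X := by
    ext i
    · simp
    · simp only; ring
    · simp
    · simp only; ring
  mul_rdiv Y X := by
    ext i
    · simp
    · simp only [add_sub_cancel_right]; ring
    · simp
    · simp only [add_sub_cancel_right]; ring

lemma mul_t (X Y : L R C M) : (mul X Y).t = X.t + Y.t := rfl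
lemma mul_a (X Y : L R C M) (i : Fin (C + 2)) :
    (mul X Y).a i = X.a i + Y.a i + X.t * prev Y.a i := rfl
lemma mul_x (X Y : L R C M) (j : Fin (M + 1)) : (mul X Y).x j = X.x j + Y.x j := rfl
lemma mul_z (X Y : L R C M) : (mul X Y).z = X.z + Y.z + X.t * ∏ j, Y.x j := rfl
lemma ldiv_t (X Y : L R C M) : (ldiv X Y).t = Y.t - X.t := rfl
lemma ldiv_a (X Y : L R C M) (i : Fin (C + 2)) :
    (ldiv X Y).a i = sol X.t (fun i => Y.a i - X.a i) i := rfl
lemma ldiv_x (X Y : L R C M) (j : Fin (M + 1)) : (ldiv X Y).x j = Y.x j - X.x j := rfl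
lemma ldiv_z (X Y : L R C M) :
    (ldiv X Y).z = Y.z - X.z - X.t * ∏ j, (Y.x j - X.x j) := rfl
lemma rdiv_t (X Y : L R C M) : (rdiv Y X).t = Y.t - X.t := rfl
lemma rdiv_a (X Y : L R C M) (i : Fin (C + 2)) :
    (rdiv Y X).a i = Y.a i - X.a i - (Y.t - X.t) * prev X.a i := rfl
lemma rdiv_x (X Y : L R C M) (j : Fin (M + 1)) : (rdiv Y X).x j = Y.x j - X.x j := rfl
lemma rdiv_z (X Y : L R C M) :
    (rdiv Y X).z = Y.z - X.z - (Y.t - X.t) * ∏ j, X.x j := rfl
lemma one_t : (one : L R C M).t = 0 := rfl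
lemma one_a (i : Fin (C + 2)) : (one : L R C M).a i = 0 := rfl
lemma one_x (j : Fin (M + 1)) : (one : L R C M).x j = 0 := rfl
lemma one_z : (one : L R C M).z = 0 := rfl

end Pool.Agent.Y477.SN
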