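import Pool.Agent.Y477.SN.Loop
import Pool.Agent.Y477.SN.Deg

/-!
The loop is `(M + 2)`-supernilpotent if `C ≤ M`.
-/

namespace Pool.Agent.Y477.SN

open Pool.Agent.Results.MP_543b9c_al.NoBound LoopStr

variable {R : Type} [CommRing R] {C M : ℕ} {ι : Type} [Fintype ι] [DecidableEq ι]

/-- The degrees of the coordinates. -/
def GoodE (E : (ι → Bool) → L R C M) : Prop :=
  Deg 1 (fun s => (E s).t) ∧ (∀ i : Fin (C + 2), Deg ((i : ℕ) + 1) (fun s => (E s).a i)) ∧
    (∀ j, Deg 1 (fun s => (E s).x j)) ∧ Deg (M + 2) (fun s => (E s).z)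

lemma deg_prev {a : (ι → Bool) → Fin (C + 2) → R}
    (ha : ∀ i : Fin (C + 2), Deg ((i : ℕ) + 1) (fun s => a s i)) (i : Fin (C + 2)) :
    Deg (i : ℕ) (fun s => prev (a s) i) := by
  refine Fin.cases ?_ (fun i => ?_) i
  · simp only [prev_zero]
    exact (Deg.const 0).mono (by simp)
  · simp only [prev_succ]
    exact (ha i.castSucc).mono (by simp)

lemma deg_sol {t : (ι → Bool) → R} {b : (ι → Bool) → Fin (C + 2) → R} (ht : Deg 1 t)
    (hb : ∀ i : Fin (C + 2), Deg ((i : ℕ) + 1) (fun s => b s i)) (i : Fin (C + 2)) :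
    Deg ((i : ℕ) + 1) (fun s => sol (t s) (b s) i) := by
  refine Fin.induction ?_ (fun i ih => ?_) i
  · simp only [sol_zero]
    exact hb 0
  · simp only [sol_succ]
    refine (hb i.succ).sub ?_
    refine (ht.mul ih).mono ?_
    simp only [Fin.val_castSucc, Fin.val_succ]
    omega

lemma deg_prod_x {x : (ι → Bool) → Fin (M + 1) → R} (hx : ∀ j, Deg 1 (fun s => x s j)) :
    Deg (M + 1) (fun s => ∏ j, x s j) := by
  have h := Deg.prod (Finset.univ : Finset (Fin (M + 1))) (f := fun j s => x s j) hx
  simpa using h

lemma good_mul {E F : (ι → Bool) → L R C M} (hE : GoodE E) (hF : GoodE F) :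
    GoodE (fun s => mul (E s) (F s)) := by
  obtain ⟨h1, h2, h3, h4⟩ := hE
  obtain ⟨k1, k2, k3, k4⟩ := hF
  refine ⟨h1.add k1, fun i => ?_, fun j => (h3 j).add (k3 j), ?_⟩
  · refine ((h2 i).add (k2 i)).add ?_
    exact (h1.mul (deg_prev k2 i)).mono (by omega)
  · refine (h4.add k4).add ?_
    exact (h1.mul (deg_prod_x k3)).mono (by omega)

lemma good_ldiv {E F : (ι → Bool) → L R C M} (hE : GoodE E) (hF : GoodE F) :
    GoodE (fun s => ldiv (E s) (F s)) := by
  obtain ⟨h1, h2, h3, h4⟩ := hE
  obtain ⟨k1, k2, k3, k4⟩ := hF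
  refine ⟨k1.sub h1, fun i => ?_, fun j => (k3 j).sub (h3 j), ?_⟩
  · exact deg_sol h1 (fun i => (k2 i).sub (h2 i)) i
  · refine (k4.sub h4).sub ?_
    exact (h1.mul (deg_prod_x fun j => (k3 j).sub (h3 j))).mono (by omega)

lemma good_rdiv {E F : (ι → Bool) → L R C M} (hE : GoodE E) (hF : GoodE F) :
    GoodE (fun s => rdiv (E s) (F s)) := by
  obtain ⟨h1, h2, h3, h4⟩ := hE
  obtain ⟨k1, k2, k3, k4⟩ := hF
  refine ⟨h1.sub k1, fun i => ?_, fun j => (h3 j).sub (k3 j), ?_⟩
  · refine ((h2 i).sub (k2 i)).sub ?_
    exact ((h1.sub k1).mul (deg_prev k2 i)).mono (by omega)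
  · refine (h4.sub k4).sub ?_
    exact ((h1.sub k1).mul (deg_prod_x k3)).mono (by omega)

lemma good_const (X : L R C M) : GoodE (fun _ : ι → Bool => X) :=
  ⟨(Deg.const _).mono (by omega), fun _ => (Deg.const _).mono (by omega),
    fun _ => (Deg.const _).mono (by omega), (Deg.const _).mono (by omega)⟩

lemma good_ite (i : ι) (X Y : L R C M) :
    GoodE (fun s : ι → Bool => if s i = true then Y else X) := by
  have h : ∀ (f : L R C M → R) (s : ι → Bool),
      f (if s i = true then Y else X) = if s i = true then f Y else f X := fun f s => by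
    split_ifs <;> rfl
  refine ⟨?_, fun j => ?_, fun j => ?_, ?_⟩
  · simp only [h (fun X => X.t)]
    exact Deg.ite i _ _
  · simp only [h (fun X => X.a j)]
    exact (Deg.ite i _ _).mono (by omega)
  · simp only [h (fun X => X.x j)]
    exact Deg.ite i _ _
  · simp only [h (fun X => X.z)]
    exact (Deg.ite i _ _).mono (by omega)

/-- The values of the variables at a vertex of the cube. -/
def env {k : ℕ} {n : Fin k → ℕ} {m : ℕ} (a b : ∀ i : Fin k, Fin (n i) → L R C M)
    (u v : Fin m → L R C M) (s : Option (Fin k) → Bool) :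
    (Σ i : Fin k, Fin (n i)) ⊕ Fin m → L R C M :=
  Sum.elim (fun ij => if s (some ij.1) = true then b ij.1 ij.2 else a ij.1 ij.2)
    (fun j => if s none = true then v j else u j)

lemma good_eval {k : ℕ} {n : Fin k → ℕ} {m : ℕ}
    (p : LPoly (L R C M) ((Σ i : Fin k, Fin (n i)) ⊕ Fin m))
    (a b : ∀ i : Fin k, Fin (n i) → L R C M) (u v : Fin m → L R C M) :
    GoodE (fun s => p.eval (env a b u v s)) := by
  induction p with
  | var x =>
    rcases x with ⟨i, j⟩ | j
    · exact good_ite (some i) (a i j) (b i j)
    · exact good_ite none (u j) (v j)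
  | const x => exact good_const x
  | mul p q hp hq => exact good_mul hp hq
  | ldiv p q hp hq => exact good_ldiv hp hq
  | rdiv p q hp hq => exact good_rdiv hp hq

lemma isSN (hCM : C ≤ M) : IsSN (L R C M) (M + 2) := by
  intro n m p a b u v _ hyp
  have hE := good_eval p a b u v
  have hyp' : ∀ s : Option (Fin (M + 2)) → Bool, (∃ i, s (some i) = false) →
      p.eval (env a b u v (Function.update s none true)) =
        p.eval (env a b u v (Function.update s none false)) := by
    intro s hs
    have h := hyp (fun i => s (some i)) (by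
      intro e
      obtain ⟨i, hi⟩ := hs
      have := congrFun e i
      rw [hi] at this
      exact absurd this (by decide))
    have h1 : env a b u v (Function.update s none true) = Sum.elim
        (fun ij => if s (some ij.1) = true then b ij.1 ij.2 else a ij.1 ij.2) v := by
      funext w
      rcases w with w | w
      · simp only [env, Sum.elim_inl]
        rw [Function.update_of_ne (by simp)]
      · simp only [env, Sum.elim_inr]
        rw [Function.update_self, if_pos rfl]
    have h0 : env a b u v (Function.update s none false) = Sum.elim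
        (fun ij => if s (some ij.1) = true then b ij.1 ij.2 else a ij.1 ij.2) u := by
      funext w
      rcases w with w | w
      · simp only [env, Sum.elim_inl]
        rw [Function.update_of_ne (by simp)]
      · simp only [env, Sum.elim_inr]
        rw [Function.update_self, if_neg (by decide)]
    rw [h1, h0]
    exact h.symm
  have h1 : env a b u v (fun _ => true) = Sum.elim (fun ij => b ij.1 ij.2) v := by
    funext w
    rcases w with w | w <;> simp [env]
  have h0 : env a b u v (Function.update (fun _ => true) none false) =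
      Sum.elim (fun ij => b ij.1 ij.2) u := by
    funext w
    rcases w with w | w
    · simp only [env, Sum.elim_inl]
      rw [Function.update_of_ne (by simp), if_pos rfl]
    · simp only [env, Sum.elim_inr]
      rw [Function.update_self, if_neg (by decide)]
  rw [← h1, ← h0]
  obtain ⟨d1, d2, d3, d4⟩ := hE
  symm
  ext i
  · exact corner d1 (by omega) fun s hs => congrArg L.t (hyp' s hs)
  · exact corner (d2 i) (by have := i.2; omega) fun s hs =>
      congrArg (fun X : L R C M => X.a i) (hyp' s hs)
  · exact corner (d3 i) (by omega) fun s hs => congrArg (fun X : L R C M => X.x i) (hyp' s hs)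
  · exact corner d4 (by omega) fun s hs => congrArg L.z (hyp' s hs)

end Pool.Agent.Y477.SN
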